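import Pool.Agent.Run7.h192.LT.Defs

/-!
# Free Q-groups exist and are not commutative on two or more generators
-/

namespace Run7.h192.LT

universe u v w

/-! ### The Heisenberg group over the rationals -/

/-- The Heisenberg group over `ℚ`, in coordinates. -/
@[ext]
structure Heis : Type where
  x : ℚ
  y : ℚ
  z : ℚ

namespace Heis

instance : Mul Heis := ⟨fun g h => ⟨g.x + h.x, g.y + h.y, g.z + h.z + g.x * h.y⟩⟩
instance : One Heis := ⟨⟨0, 0, 0⟩⟩
instance : Inv Heis := ⟨fun g => ⟨-g.x, -g.y, -g.z + g.x * g.y⟩⟩

theorem mul_def (g h : Heis) : g * h = ⟨g.x + h.x, g.y + h.y, g.z + h.z + g.x * h.y⟩ := rfl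
theorem one_def : (1 : Heis) = ⟨0, 0, 0⟩ := rfl
theorem inv_def (g : Heis) : g⁻¹ = ⟨-g.x, -g.y, -g.z + g.x * g.y⟩ := rfl

instance : Group Heis :=
  Group.ofLeftAxioms
    (by intro a b c; simp only [mul_def]; ext <;> simp only <;> ring)
    (by intro a; simp only [mul_def, one_def]; ext <;> simp only <;> ring)
    (by intro a; simp only [mul_def, one_def, inv_def]; ext <;> simp only <;> ring)

theorem pow_def (g : Heis) (n : ℕ) :
    g ^ n = ⟨n * g.x, n * g.y, n * g.z + (n * (n - 1) / 2) * (g.x * g.y)⟩ := by
  induction n with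
  | zero => rw [pow_zero, one_def]; ext <;> simp
  | succ n ih =>
    rw [pow_succ, ih, mul_def]
    ext <;> simp only <;> push_cast <;> ring

theorem isQGroup : IsQGroup Heis := by
  intro g n hn
  have hn' : (n : ℚ) ≠ 0 := by positivity
  refine ⟨⟨g.x / n, g.y / n, (g.z - (n * (n - 1) / 2) * (g.x / n * (g.y / n))) / n⟩, ?_, ?_⟩
  · simp only [pow_def]
    ext <;> simp only <;> field_simp
    ring
  · rintro ⟨a, b, c⟩ h
    simp only [pow_def] at h
    obtain ⟨h1, h2, h3⟩ := (Heis.ext_iff.1 h)
    simp only at h1 h2 h3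
    have ea : a = g.x / n := by field_simp; linarith
    have eb : b = g.y / n := by field_simp; linarith
    ext
    · exact ea
    · exact eb
    · simp only
      rw [← ea, ← eb, eq_div_iff hn']
      linarith

theorem not_comm : (⟨1, 0, 0⟩ : Heis) * ⟨0, 1, 0⟩ ≠ ⟨0, 1, 0⟩ * ⟨1, 0, 0⟩ := by
  intro h
  simp only [mul_def] at h
  have := congrArg Heis.z h
  norm_num at this

end Heis

/-- Being a `ℚ`-group is invariant under isomorphism. -/
theorem IsQGroup.of_equiv {G : Type u} {H : Type v} [Group G] [Group H] (e : G ≃* H)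
    (hG : IsQGroup G) : IsQGroup H := by
  intro g n hn
  obtain ⟨x, hx, hu⟩ := hG (e.symm g) n hn
  refine ⟨e x, ?_, ?_⟩
  · simp only [← map_pow, hx, MulEquiv.apply_symm_apply]
  · intro y hy
    have := hu (e.symm y) (by simp only at hy ⊢; rw [← map_pow, hy])
    rw [← this, MulEquiv.apply_symm_apply]

/-- In a free `ℚ`-group the images of two different generators do not commute. -/
theorem IsFreeQGroup.not_comm {X : Type u} {G : Type v} [Group G] {ι : X → G}
    (h : IsFreeQGroup.{u, v, w} ι) {x y : X} (hxy : x ≠ y) : ι x * ι y ≠ ι y * ι x := by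
  classical
  intro hc
  obtain ⟨φ, hφ, -⟩ := h.2 (ULift.{w} Heis) (IsQGroup.of_equiv MulEquiv.ulift.symm Heis.isQGroup)
    (fun z => if z = x then ⟨⟨1, 0, 0⟩⟩ else ⟨⟨0, 1, 0⟩⟩)
  have h1 := hφ x
  have h2 := hφ y
  rw [if_pos rfl] at h1
  rw [if_neg (Ne.symm hxy)] at h2
  have := congrArg φ hc
  rw [map_mul, map_mul, h1, h2] at this
  exact Heis.not_comm (congrArg ULift.down this)

/-! ### Existence of free Q-groups -/

/-- Terms in the generators `X` and the operations of `ℚ`-groups; `root n` stands for the
`(n + 1)`-st root. -/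
inductive Term (X : Type u) : Type u
  | of : X → Term X
  | one : Term X
  | mul : Term X → Term X → Term X
  | inv : Term X → Term X
  | root : ℕ → Term X → Term X

namespace Term

variable {X : Type u}

/-- Powers of a term. -/
def npow (t : Term X) : ℕ → Term X
  | 0 => one
  | n + 1 => mul (npow t n) t

/-- The congruence generated by the laws of `ℚ`-groups. -/
inductive Rel : Term X → Term X → Prop
  | refl (t : Term X) : Rel t t
  | symm {s t : Term X} : Rel s t → Rel t s
  | trans {r s t : Term X} : Rel r s → Rel s t → Rel r t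
  | mul_congr {s s' t t' : Term X} : Rel s s' → Rel t t' → Rel (mul s t) (mul s' t')
  | inv_congr {s s' : Term X} : Rel s s' → Rel (inv s) (inv s')
  | root_congr (n : ℕ) {s s' : Term X} : Rel s s' → Rel (root n s) (root n s')
  | mul_assoc (r s t : Term X) : Rel (mul (mul r s) t) (mul r (mul s t))
  | one_mul (t : Term X) : Rel (mul one t) t
  | inv_mul (t : Term X) : Rel (mul (inv t) t) one
  | root_pow (n : ℕ) (t : Term X) : Rel (npow (root n t) (n + 1)) t
  | pow_root (n : ℕ) (t : Term X) : Rel (root n (npow t (n + 1))) t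

/-- The setoid of the congruence. -/
def setoid (X : Type u) : Setoid (Term X) :=
  ⟨Rel, ⟨Rel.refl, Rel.symm, Rel.trans⟩⟩

end Term

/-- The free `ℚ`-group on `X`. -/
def FreeQ (X : Type u) : Type u := Quotient (Term.setoid X)

namespace FreeQ

variable {X : Type u}

/-- The class of a term. -/
def mk (t : Term X) : FreeQ X := Quotient.mk (Term.setoid X) t

theorem mk_eq {s t : Term X} (h : Term.Rel s t) : mk s = mk t :=
  Quotient.sound (s := Term.setoid X) h

theorem ind {p : FreeQ X → Prop} (h : ∀ t, p (mk t)) (x : FreeQ X) : p x :=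
  Quotient.ind (s := Term.setoid X) h x

instance : One (FreeQ X) := ⟨mk Term.one⟩
instance : Mul (FreeQ X) :=
  ⟨Quotient.map₂ (sa := Term.setoid X) (sb := Term.setoid X) (sc := Term.setoid X) Term.mul
    (fun _ _ h1 _ _ h2 => Term.Rel.mul_congr h1 h2)⟩
instance : Inv (FreeQ X) :=
  ⟨Quotient.map (sa := Term.setoid X) (sb := Term.setoid X) Term.inv
    (fun _ _ h => Term.Rel.inv_congr h)⟩

/-- The root operation. -/
def root (n : ℕ) : FreeQ X → FreeQ X :=
  Quotient.map (sa := Term.setoid X) (sb := Term.setoid X) (Term.root n)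
    (fun _ _ h => Term.Rel.root_congr n h)

theorem mk_mul (s t : Term X) : mk s * mk t = mk (Term.mul s t) := rfl
theorem mk_inv (s : Term X) : (mk s)⁻¹ = mk (Term.inv s) := rfl
theorem mk_one : (1 : FreeQ X) = mk Term.one := rfl
theorem mk_root (n : ℕ) (s : Term X) : root n (mk s) = mk (Term.root n s) := rfl

instance : Group (FreeQ X) :=
  Group.ofLeftAxioms
    (by
      intro a b c
      induction a using ind with | _ a
      induction b using ind with | _ b
      induction c using ind with | _ c
      exact mk_eq (Term.Rel.mul_assoc a b c))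
    (by
      intro a
      induction a using ind with | _ a
      exact mk_eq (Term.Rel.one_mul a))
    (by
      intro a
      induction a using ind with | _ a
      exact mk_eq (Term.Rel.inv_mul a))

theorem mk_npow (t : Term X) (n : ℕ) : mk (Term.npow t n) = mk t ^ n := by
  induction n with
  | zero => rw [pow_zero]; rfl
  | succ n ih => rw [pow_succ, ← ih]; rfl

theorem root_pow (n : ℕ) (a : FreeQ X) : root n a ^ (n + 1) = a := by
  induction a using ind with | _ a
  rw [mk_root, ← mk_npow]
  exact mk_eq (Term.Rel.root_pow n a)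

theorem pow_root (n : ℕ) (a : FreeQ X) : root n (a ^ (n + 1)) = a := by
  induction a using ind with | _ a
  rw [← mk_npow, mk_root]
  exact mk_eq (Term.Rel.pow_root n a)

theorem isQGroup (X : Type u) : IsQGroup (FreeQ X) := by
  intro g n hn
  obtain ⟨m, rfl⟩ : ∃ m, n = m + 1 := ⟨n - 1, by omega⟩
  refine ⟨root m g, root_pow m g, ?_⟩
  intro y hy
  have hy' : y ^ (m + 1) = g := hy
  rw [← hy', pow_root]

/-- The generators. -/
def ι (x : X) : FreeQ X := mk (Term.of x)

section lift

variable {H : Type w} [Group H] (hH : IsQGroup H)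

/-- The `(n + 1)`-st root in a `ℚ`-group. -/
noncomputable def hroot (hH : IsQGroup H) (n : ℕ) (g : H) : H :=
  (hH g (n + 1) (Nat.le_add_left 1 n)).choose

theorem hroot_pow (n : ℕ) (g : H) : hroot hH n g ^ (n + 1) = g :=
  (hH g (n + 1) (Nat.le_add_left 1 n)).choose_spec.1

theorem eq_hroot (n : ℕ) (g y : H) (hy : y ^ (n + 1) = g) : y = hroot hH n g :=
  (hH g (n + 1) (Nat.le_add_left 1 n)).choose_spec.2 y hy

theorem pow_hroot (n : ℕ) (g : H) : hroot hH n (g ^ (n + 1)) = g :=
  (eq_hroot hH n _ g rfl).symm

/-- The value of a term. -/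
noncomputable def eval (f : X → H) : Term X → H
  | Term.of x => f x
  | Term.one => 1
  | Term.mul s t => eval f s * eval f t
  | Term.inv s => (eval f s)⁻¹
  | Term.root n s => hroot hH n (eval f s)

theorem eval_npow (f : X → H) (t : Term X) (n : ℕ) :
    eval hH f (Term.npow t n) = eval hH f t ^ n := by
  induction n with
  | zero => rw [pow_zero]; rfl
  | succ n ih => rw [pow_succ, ← ih]; rfl

theorem eval_rel (f : X → H) {s t : Term X} (h : Term.Rel s t) : eval hH f s = eval hH f t := by
  induction h with
  | refl t => rfl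
  | symm _ ih => exact ih.symm
  | trans _ _ ih1 ih2 => exact ih1.trans ih2
  | mul_congr _ _ ih1 ih2 => simp only [eval, ih1, ih2]
  | inv_congr _ ih => simp only [eval, ih]
  | root_congr n _ ih => simp only [eval, ih]
  | mul_assoc r s t => simp only [eval, _root_.mul_assoc]
  | one_mul t => simp only [eval, _root_.one_mul]
  | inv_mul t => simp only [eval, inv_mul_cancel]
  | root_pow n t => rw [eval_npow]; simp only [eval]; exact hroot_pow hH n _
  | pow_root n t => simp only [eval]; rw [eval_npow]; exact pow_hroot hH n _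

/-- The induced homomorphism. -/
noncomputable def lift (f : X → H) : FreeQ X →* H where
  toFun := Quotient.lift (s := Term.setoid X) (eval hH f) (fun _ _ h => eval_rel hH f h)
  map_one' := rfl
  map_mul' := by
    intro a b
    induction a using ind with | _ a
    induction b using ind with | _ b
    rfl

theorem lift_mk (f : X → H) (t : Term X) : lift hH f (mk t) = eval hH f t := rfl

end lift

theorem isFree (X : Type u) : IsFreeQGroup.{u, u, w} (ι : X → FreeQ X) := by
  refine ⟨isQGroup X, ?_⟩
  intro H _ hH f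
  refine ⟨lift hH f, fun x => rfl, ?_⟩
  intro φ hφ
  ext a
  induction a using ind with | _ t
  rw [lift_mk]
  induction t with
  | of x => exact hφ x
  | one => exact map_one φ
  | mul s t ihs iht => rw [← mk_mul, map_mul, ihs, iht]; rfl
  | inv s ih => rw [← mk_inv, map_inv, ih]; rfl
  | root n s ih =>
    rw [← mk_root]
    refine eq_hroot hH n _ _ ?_
    rw [← map_pow, root_pow n, ih]

end FreeQ

end Run7.h192.LT
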