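import Pool.Agent.Run7.h192.LT.Geom

/-!
# Groups with square roots acting freely on Lambda-trees are abelian

Everything here is deduced from medians and the four-point condition.
-/

namespace Run7.h192.LT

universe a b v

variable {Λ : Type a} [AddCommGroup Λ] [LinearOrder Λ] [IsOrderedAddMonoid Λ] {T : Type b}
variable {d : T → T → Λ}

/-- Two points of a geodesic at the same distance from its first end are equal. -/
theorem eq_of_btw (h : IsLambdaTree d) {x y p q : T} (hp : d x p + d p y = d x y)
    (hq : d x q + d q y = d x y) (hpq : d x p = d x q) : p = q := by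
  have s1 := h.metric.symm p x
  have n := h.metric.nonneg p q
  apply (h.metric.eq_zero_iff _ _).1
  rcases four_point h p x q y with k | k <;> grind

/-- If `y, z` are in the same direction at `p`, and so are `z, t`, then so are `y, t`. -/
theorem dir_trans (h : IsLambdaTree d) {p y z t : T} (h1 : d y z < d p y + d p z)
    (h2 : d z t < d p z + d p t) : d y t < d p y + d p t := by
  rcases four_point h p y z t with k | k <;> grind

section

variable {G : Type v} [Group G] [MulAction G T]

/-- If `g ^ 2` fixes no point then `x` is nearer to `g x` than to `g ^ 2 x`. -/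
theorem lt_of_no_fix (h : IsLambdaTree d) (iso : ∀ (g : G) (x y : T), d (g • x) (g • y) = d x y)
    (g : G) (hfix : ∀ v : T, g • g • v ≠ v) (x : T) : d x (g • x) < d x (g • g • x) := by
  by_contra hle
  rw [not_lt] at hle
  obtain ⟨w, m1, m2, m3⟩ := exists_median h x (g • x) (g • g • x)
  have hgv : g • g⁻¹ • w = w := smul_inv_smul g w
  set v := g⁻¹ • w with hv
  have i1 := iso g x v
  have i2 := iso g v (g • x)
  have i3 := iso g x w
  have i4 := iso g w (g • x)
  have i5 := iso g x (g • x)
  rw [hgv] at i1 i2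
  have k1 := four_point h (g • x) (g • w) (g • g • x) w
  have k2 := four_point h (g • x) v x w
  have k3 := four_point h (g • x) (g • w) w v
  have s1 := h.metric.symm x (g • x)
  have s2 := h.metric.symm w (g • x)
  have s3 := h.metric.symm v (g • x)
  have s4 := h.metric.symm x v
  have s5 := h.metric.symm v w
  have s6 := h.metric.symm w (g • g • x)
  have n := h.metric.nonneg (g • w) v
  have hz : g • w = v := by
    apply (h.metric.eq_zero_iff _ _).1
    rcases k1 with k1 | k1 <;> rcases k2 with k2 | k2 <;> rcases k3 with k3 | k3 <;> grind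
  apply hfix v
  rw [hgv, hz]

/-- The displacements of the powers of `g`. -/
theorem seq (h : IsLambdaTree d) (iso : ∀ (g : G) (x y : T), d (g • x) (g • y) = d x y)
    (g : G) (hfix : ∀ v : T, g • g • v ≠ v) (x : T) :
    d x (g • g • g • x) + d x (g • x) = d x (g • g • x) + d x (g • g • x) ∧
    d x (g • g • g • g • x) + d x (g • g • x) = d x (g • g • g • x) + d x (g • g • g • x) := by
  have l := lt_of_no_fix h iso g hfix x
  have i1 := iso g x (g • x)
  have i2 := iso g (g • x) (g • g • x)
  have i3 := iso g x (g • g • x)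
  have i4 := iso g (g • g • x) (g • g • g • x)
  have i5 := iso g x (g • g • g • x)
  have i6 := iso g (g • x) (g • g • g • x)
  have s1 := h.metric.symm (g • g • g • x) (g • g • x)
  have s2 := h.metric.symm (g • g • g • g • x) (g • g • g • x)
  have k1 := four_point h x (g • x) (g • g • x) (g • g • g • x)
  have k2 := four_point h x (g • x) (g • g • g • x) (g • g • x)
  have k3 := four_point h x (g • x) (g • g • g • x) (g • g • g • g • x)
  have k4 := four_point h x (g • x) (g • g • g • g • x) (g • g • g • x)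
  have e1 : d x (g • g • g • x) + d x (g • x) = d x (g • g • x) + d x (g • g • x) := by
    rcases k1 with k1 | k1 <;> rcases k2 with k2 | k2 <;> grind
  refine ⟨e1, ?_⟩
  rcases k3 with k3 | k3 <;> rcases k4 with k4 | k4 <;> grind

/-- If `p` is on the axis of `g ^ 2` then it is on the axis of `g`. -/
theorem halve (h : IsLambdaTree d) (iso : ∀ (g : G) (x y : T), d (g • x) (g • y) = d x y)
    (g : G) (hfix : ∀ v : T, g • g • v ≠ v) (p : T)
    (hp : d p (g • g • g • g • p) = d p (g • g • p) + d p (g • g • p)) :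
    d p (g • g • p) = d p (g • p) + d p (g • p) := by
  obtain ⟨e1, e2⟩ := seq h iso g hfix p
  grind

/-- The chain `p, g p, g h p, g h g p, g h g h p`. -/
theorem chain (h : IsLambdaTree d) (iso : ∀ (g : G) (x y : T), d (g • x) (g • y) = d x y)
    (g k : G) (p : T) (hg : 0 < d p (g • p)) (hk : 0 < d p (k • p))
    (h1 : d p (g • k • p) = d p (g • p) + d p (k • p))
    (h2 : d p (k • g • p) = d p (g • p) + d p (k • p)) :
    d p (g • k • g • k • p) = d p (g • k • p) + d p (g • k • p) := by
  have i1 := iso g p (k • p)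
  have i2 := iso g p (k • g • p)
  have i3 : d (g • k • p) (g • k • g • p) = d p (g • p) := by rw [iso, iso]
  have i4 : d (g • k • p) (g • k • g • k • p) = d p (g • k • p) := by rw [iso, iso]
  have i5 : d (g • k • g • p) (g • k • g • k • p) = d p (k • p) := by rw [iso, iso, iso]
  have k1 := four_point h p (g • p) (g • k • p) (g • k • g • p)
  have k2 := four_point h p (g • p) (g • k • g • p) (g • k • p)
  have k3 := four_point h p (g • k • p) (g • k • g • p) (g • k • g • k • p)
  have k4 := four_point h p (g • k • p) (g • k • g • k • p) (g • k • g • p)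
  have s1 := h.metric.symm (g • k • g • p) (g • k • p)
  have s2 := h.metric.symm (g • k • g • k • p) (g • k • g • p)
  have e1 : d p (g • k • g • p) = d p (g • p) + d p (g • p) + d p (k • p) := by
    rcases k1 with k1 | k1 <;> rcases k2 with k2 | k2 <;> grind
  rcases k3 with k3 | k3 <;> rcases k4 with k4 | k4 <;> grind

/-- Two translations whose product has a long axis commute: the oriented and ordered case. -/
theorem commute_oriented (h : IsLambdaTree d)
    (iso : ∀ (g : G) (x y : T), d (g • x) (g • y) = d x y)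
    (free : ∀ g : G, g ≠ 1 → ∀ x : T, g • x ≠ x) (tf : ∀ g : G, g * g = 1 → g = 1)
    (root : ∀ g : G, ∃ r, r * r = g)
    (g k : G) (p : T) (hg : g ≠ 1) (hk : k ≠ 1)
    (ag : d p (g • g • p) = d p (g • p) + d p (g • p))
    (h1 : d p (g • k • p) = d p (g • p) + d p (k • p))
    (h2 : d p (k • g • p) = d p (g • p) + d p (k • p))
    (hle : d p (k • p) ≤ d p (g • p)) : g * k = k * g := by
  have pos : ∀ r : G, r ≠ 1 → 0 < d p (r • p) := by
    intro r hr
    rcases (h.metric.nonneg p (r • p)).lt_or_eq with hlt | heq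
    · exact hlt
    · exact absurd ((h.metric.eq_zero_iff _ _).1 heq.symm).symm (free r hr p)
  have nofix : ∀ r : G, r ≠ 1 → ∀ v : T, r • r • v ≠ v := by
    intro r hr v hv
    rw [smul_smul] at hv
    exact free (r * r) (fun e => hr (tf r e)) v hv
  have pg := pos g hg
  have pk := pos k hk
  have hu := chain h iso g k p pg pk h1 h2
  obtain ⟨σ, hσ⟩ := root (g * k)
  obtain ⟨ρ, hρ⟩ := root σ
  obtain ⟨τ, hτ⟩ := root g
  have hune : g * k ≠ 1 := by
    intro e
    rw [smul_smul, e, one_smul, (h.metric.eq_zero_iff p p).2 rfl] at h1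
    grind
  have hσne : σ ≠ 1 := by rintro rfl; exact hune (by rw [← hσ, one_mul])
  have hρne : ρ ≠ 1 := by rintro rfl; exact hσne (by rw [← hρ, one_mul])
  have hτne : τ ≠ 1 := by rintro rfl; exact hg (by rw [← hτ, one_mul])
  have eσ : ∀ x : T, σ • σ • x = g • k • x := by
    intro x; rw [smul_smul, hσ, ← smul_smul]
  have eρ : ∀ x : T, ρ • ρ • x = σ • x := by
    intro x; rw [smul_smul, hρ]
  have eτ : ∀ x : T, τ • τ • x = g • x := by
    intro x; rw [smul_smul, hτ]
  have aσ := halve h iso σ (nofix σ hσne) p (by rw [eσ, eσ]; exact hu)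
  have aρ := halve h iso ρ (nofix ρ hρne) p (by rw [eρ, eρ]; exact aσ)
  have aτ := halve h iso τ (nofix τ hτne) p (by rw [eτ, eτ]; exact ag)
  obtain ⟨q1, q2⟩ := seq h iso ρ (nofix ρ hρne) p
  have e4 : ρ • ρ • ρ • ρ • p = g • k • p := by rw [eρ, eρ, eσ]
  rw [e4] at q2
  rw [eτ] at aτ
  -- `g p` is between `p` and `g k p`
  have b1 : d (g • p) (g • k • p) = d p (k • p) := iso g p (k • p)
  -- `τ p` is between `p` and `g p`
  have b2 : d (τ • p) (g • p) = d p (τ • p) := by rw [← eτ p, iso]
  have t1 := h.metric.triangle (τ • p) (g • p) (g • k • p)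
  have t2 := h.metric.triangle p (τ • p) (g • k • p)
  -- distance from `ρ p` to `g k p` and from `ρ^3 p` to `g k p`
  have b3 : d (ρ • p) (g • k • p) = d p (ρ • ρ • ρ • p) := by rw [← e4, iso]
  have b4 : d (ρ • ρ • ρ • p) (g • k • p) = d p (ρ • p) := by rw [← e4, iso, iso, iso]
  -- distance from `ρ p` to `τ p`
  have f1 := four_point h p (ρ • p) (g • k • p) (τ • p)
  have s1 := h.metric.symm (g • k • p) (τ • p)
  have s2 := h.metric.symm (ρ • p) (τ • p)
  have c1 : d (ρ • p) (τ • p) ≤ d p (τ • p) - d p (ρ • p) := by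
    rcases f1 with f1 | f1 <;> grind
  -- distance from `τ p` to `ρ^3 p`
  have f2 := four_point h p (τ • p) (g • k • p) (ρ • ρ • ρ • p)
  have s3 := h.metric.symm (g • k • p) (ρ • ρ • ρ • p)
  have c2 : d (τ • p) (ρ • ρ • ρ • p) ≤ d p (ρ • ρ • ρ • p) - d p (τ • p) := by
    rcases f2 with f2 | f2 <;> grind
  -- the point `τ ρ p`
  have u1 := h.metric.triangle p (τ • p) (τ • ρ • p)
  have u2 : d (τ • p) (τ • ρ • p) = d p (ρ • p) := iso _ _ _
  have u3 : d (τ • ρ • p) (g • p) = d (ρ • p) (τ • p) := by rw [← eτ p, iso]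
  have u4 := h.metric.triangle (τ • ρ • p) (g • p) (g • k • p)
  have u5 := h.metric.triangle p (τ • ρ • p) (g • k • p)
  -- the point `ρ τ p`
  have v1 := h.metric.triangle p (ρ • p) (ρ • τ • p)
  have v2 : d (ρ • p) (ρ • τ • p) = d p (τ • p) := iso _ _ _
  have v3 : d (ρ • τ • p) (g • k • p) = d (τ • p) (ρ • ρ • ρ • p) := by rw [← e4, iso]
  have v5 := h.metric.triangle p (ρ • τ • p) (g • k • p)
  have hEq : τ • ρ • p = ρ • τ • p := by
    apply eq_of_btw h (x := p) (y := g • k • p) <;> grind
  have hc : τ * ρ = ρ * τ := by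
    by_contra hne
    have hne' : (ρ * τ)⁻¹ * (τ * ρ) ≠ 1 := by
      intro e
      exact hne (inv_mul_eq_one.1 e).symm
    apply free _ hne' p
    rw [← smul_smul, ← smul_smul τ ρ p, hEq, smul_smul ρ τ p, inv_smul_smul]
  have hc1 : Commute τ ρ := hc
  have hc2 : Commute g (g * k) := by
    rw [← hσ, ← hρ, ← hτ]
    exact ((hc1.mul_right hc1).mul_right (hc1.mul_right hc1)).mul_left
      ((hc1.mul_right hc1).mul_right (hc1.mul_right hc1))
  have hc3 : g * (g * k) = g * (k * g) := by
    have := hc2.eq
    rw [this, mul_assoc]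
  exact mul_left_cancel hc3

/-- Two nontrivial elements whose axes have a common point commute. -/
theorem commute_of_common (h : IsLambdaTree d)
    (iso : ∀ (g : G) (x y : T), d (g • x) (g • y) = d x y)
    (free : ∀ g : G, g ≠ 1 → ∀ x : T, g • x ≠ x) (tf : ∀ g : G, g * g = 1 → g = 1)
    (root : ∀ g : G, ∃ r, r * r = g)
    (g k : G) (p : T) (hg : g ≠ 1) (hk : k ≠ 1)
    (ag : d p (g • g • p) = d p (g • p) + d p (g • p))
    (ak : d p (k • k • p) = d p (k • p) + d p (k • p)) : g * k = k * g := by
  have step : ∀ (k : G), k ≠ 1 → d p (k • k • p) = d p (k • p) + d p (k • p) →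
      d p (g • k • p) = d p (g • p) + d p (k • p) →
      d p (k • g • p) = d p (g • p) + d p (k • p) → g * k = k * g := by
    intro k hk ak h1 h2
    rcases le_total (d p (k • p)) (d p (g • p)) with hle | hle
    · exact commute_oriented h iso free tf root g k p hg hk ag h1 h2 hle
    · exact (commute_oriented h iso free tf root k g p hk hg ak (by rw [h2, add_comm])
        (by rw [h1, add_comm]) hle).symm
  have inv_dist : ∀ r : G, d p (r⁻¹ • p) = d p (r • p) := by
    intro r
    rw [← iso r p (r⁻¹ • p), smul_inv_smul, h.metric.symm]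
  have two : ∀ r s : G, d (r⁻¹ • p) (s • p) = d p (r • s • p) := by
    intro r s
    rw [← iso r (r⁻¹ • p) (s • p), smul_inv_smul]
  have f := four_point h (g⁻¹ • p) (k • p) (g • p) (k⁻¹ • p)
  have e1 := two g g
  have e2 := two k k
  have e3 := two g k
  have e4 := two k g
  have e5 := two g k⁻¹
  have e6 := two k⁻¹ g
  rw [inv_inv] at e6
  have s1 := h.metric.symm (k • p) (k⁻¹ • p)
  have s2 := h.metric.symm (g • p) (k⁻¹ • p)
  have d1 := inv_dist g
  have d2 := inv_dist k
  have t1 := h.metric.triangle p (g • p) (g • k • p)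
  have t2 := h.metric.triangle p (k • p) (k • g • p)
  have t3 := h.metric.triangle p (g • p) (g • k⁻¹ • p)
  have t4 := h.metric.triangle p (k⁻¹ • p) (k⁻¹ • g • p)
  rw [iso] at t1 t2 t3 t4
  rcases f with f | f
  · exact step k hk ak (by grind) (by grind)
  · have hk' : k⁻¹ ≠ 1 := inv_ne_one.2 hk
    have ak' : d p (k⁻¹ • k⁻¹ • p) = d p (k⁻¹ • p) + d p (k⁻¹ • p) := by
      have : d p (k⁻¹ • k⁻¹ • p) = d p (k • k • p) := by
        rw [← iso (k * k) p (k⁻¹ • k⁻¹ • p), ← smul_smul, ← smul_smul, smul_inv_smul,
          smul_inv_smul, h.metric.symm]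
      rw [this, ak, d2]
    have := step k⁻¹ hk' ak' (by grind) (by grind)
    -- `g` commutes with `k⁻¹`, hence with `k`
    have hc : Commute g k⁻¹ := this
    exact (Commute.inv_right_iff.1 hc).eq

/-- The projection of a point to the axis of `g`. -/
theorem exists_proj (h : IsLambdaTree d)
    (iso : ∀ (g : G) (x y : T), d (g • x) (g • y) = d x y)
    (g : G) (hfix : ∀ v : T, g • g • v ≠ v) (x : T) :
    ∃ p : T, d p (g • g • p) = d p (g • p) + d p (g • p) ∧
      d x (g • p) = d x p + d p (g • p) ∧ d x (g⁻¹ • p) = d x p + d p (g • p) := by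
  obtain ⟨p, m1, m2, m3⟩ := exists_median h x (g • x) (g⁻¹ • x)
  have l := lt_of_no_fix h iso g hfix x
  have e0 : d x (g⁻¹ • x) = d x (g • x) := by
    rw [← iso g x (g⁻¹ • x), smul_inv_smul, h.metric.symm]
  have e1 : d (g • x) (g⁻¹ • x) = d x (g • g • x) := by
    rw [← iso g (g • x) (g⁻¹ • x), smul_inv_smul, h.metric.symm]
  have e2 : d (g • p) x = d p (g⁻¹ • x) := by
    rw [← iso g p (g⁻¹ • x), smul_inv_smul]
  have e3 : d (g • p) (g • x) = d p x := iso g p x
  have e4 : d (g⁻¹ • p) x = d p (g • x) := by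
    rw [← iso g (g⁻¹ • p) x, smul_inv_smul]
  have e5 : d (g⁻¹ • p) (g⁻¹ • x) = d p x := iso g⁻¹ p x
  have e6 : d p (g⁻¹ • p) = d p (g • p) := by
    rw [← iso g p (g⁻¹ • p), smul_inv_smul, h.metric.symm]
  have e7 : d (g⁻¹ • p) (g • p) = d p (g • g • p) := by
    rw [← iso g (g⁻¹ • p) (g • p), smul_inv_smul]
  have s1 := h.metric.symm x p
  have s2 := h.metric.symm (g • x) p
  have s3 := h.metric.symm (g⁻¹ • x) p
  have s4 := h.metric.symm x (g • p)
  have s5 := h.metric.symm (g • x) (g • p)
  have s6 := h.metric.symm x (g⁻¹ • p)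
  have s7 := h.metric.symm (g⁻¹ • x) (g⁻¹ • p)
  have s8 := h.metric.symm (g⁻¹ • p) (g • x)
  have f1 := four_point h x p (g • p) (g • x)
  have f2 := four_point h x p (g • x) (g • p)
  have t1 := h.metric.triangle (g⁻¹ • x) (g⁻¹ • p) (g • x)
  have t2 := h.metric.triangle (g⁻¹ • p) (g • p) (g • x)
  have t3 := h.metric.triangle (g⁻¹ • p) p (g • p)
  have s9 := h.metric.symm (g⁻¹ • x) (g • x)
  have s10 := h.metric.symm (g⁻¹ • p) p
  have hpg : d p (g • p) + d x p + d x p = d x (g • x) := by
    rcases f1 with f1 | f1 <;> rcases f2 with f2 | f2 <;> grind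
  exact ⟨p, by grind, by grind, by grind⟩

/-- If `y` is on the axis of `g` and `p` is not, then `g p` and `y` are in the same direction at
`p`. -/
theorem same_dir (h : IsLambdaTree d)
    (iso : ∀ (g : G) (x y : T), d (g • x) (g • y) = d x y)
    (g : G) (y p : T) (hy : d y (g • g • y) = d y (g • y) + d y (g • y))
    (hp : d p (g • g • p) < d p (g • p) + d p (g • p)) :
    d y (g • p) < d p y + d p (g • p) := by
  by_contra hcon
  rw [not_lt] at hcon
  have e6 : d p (g⁻¹ • p) = d p (g • p) := by
    rw [← iso g p (g⁻¹ • p), smul_inv_smul, h.metric.symm]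
  have e7 : d (g⁻¹ • p) (g • p) = d p (g • g • p) := by
    rw [← iso g (g⁻¹ • p) (g • p), smul_inv_smul]
  have e8 : d y (g⁻¹ • p) = d (g • y) p := by
    rw [← iso g y (g⁻¹ • p), smul_inv_smul]
  -- the same for the inverse
  have hcon' : d p y + d p (g • p) ≤ d y (g⁻¹ • p) := by
    by_contra hlt
    rw [not_le] at hlt
    have := dir_trans h (p := p) (y := y) (z := g⁻¹ • p) (t := g • p) (by rw [e6]; exact hlt)
      (by rw [e7, e6]; exact hp)
    exact absurd this (not_lt.2 hcon)
  have i1 := iso g p y
  have s1 := h.metric.symm y p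
  have s2 := h.metric.symm (g • y) p
  have s3 := h.metric.symm (g • y) (g • p)
  have s4 := h.metric.symm y (g • p)
  have s5 := h.metric.symm y (g • y)
  have t1 := h.metric.triangle p y (g • p)
  have f1 := four_point h y p (g • p) (g • y)
  have t2 := h.metric.triangle y p (g • g • y)
  have t3 := h.metric.triangle p (g • g • p) (g • g • y)
  have i2 : d (g • g • p) (g • g • y) = d p y := by rw [iso, iso]
  have n1 := h.metric.nonneg y p
  have n2 := h.metric.nonneg p (g • p)
  have n3 := h.metric.nonneg p (g • g • p)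
  rcases f1 with f1 | f1 <;> grind

/-- A group in which every element is a square and only `1` squares to `1`, acting on a `Λ`-tree by
isometries so that no nontrivial element fixes a point, is abelian. -/
theorem abelian_of_free (h : IsLambdaTree d)
    (iso : ∀ (g : G) (x y : T), d (g • x) (g • y) = d x y)
    (free : ∀ g : G, g ≠ 1 → ∀ x : T, g • x ≠ x) (tf : ∀ g : G, g * g = 1 → g = 1)
    (root : ∀ g : G, ∃ r, r * r = g) (g k : G) : g * k = k * g := by
  by_cases hg : g = 1
  · rw [hg, one_mul, mul_one]
  by_cases hk : k = 1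
  · rw [hk, one_mul, mul_one]
  have pos : ∀ (r : G) (p : T), r ≠ 1 → 0 < d p (r • p) := by
    intro r p hr
    rcases (h.metric.nonneg p (r • p)).lt_or_eq with hlt | heq
    · exact hlt
    · exact absurd ((h.metric.eq_zero_iff _ _).1 heq.symm).symm (free r hr p)
  have nofix : ∀ r : G, r ≠ 1 → ∀ v : T, r • r • v ≠ v := by
    intro r hr v hv
    rw [smul_smul] at hv
    exact free (r * r) (fun e => hr (tf r e)) v hv
  obtain ⟨x⟩ := h.nonempty
  obtain ⟨y, hy, -, -⟩ := exists_proj h iso k (nofix k hk) x
  obtain ⟨p, hp, d1, d2⟩ := exists_proj h iso g (nofix g hg) y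
  by_cases hpk : d p (k • k • p) = d p (k • p) + d p (k • p)
  · exact commute_of_common h iso free tf root g k p hg hk hp hpk
  · have inv_dist : ∀ (r : G), d p (r⁻¹ • p) = d p (r • p) := by
      intro r
      rw [← iso r p (r⁻¹ • p), smul_inv_smul, h.metric.symm]
    have two : ∀ r s : G, d (r⁻¹ • p) (s • p) = d p (r • s • p) := by
      intro r s
      rw [← iso r (r⁻¹ • p) (s • p), smul_inv_smul]
    have sq_inv : ∀ (r : G) (z : T), d z (r⁻¹ • r⁻¹ • z) = d z (r • r • z) := by
      intro r z
      rw [← iso (r * r) z (r⁻¹ • r⁻¹ • z), ← smul_smul, ← smul_smul, smul_inv_smul,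
        smul_inv_smul, h.metric.symm]
    have one_inv : ∀ (r : G) (z : T), d z (r⁻¹ • z) = d z (r • z) := by
      intro r z
      rw [← iso r z (r⁻¹ • z), smul_inv_smul, h.metric.symm]
    have hlt : d p (k • k • p) < d p (k • p) + d p (k • p) := by
      have t := h.metric.triangle p (k • p) (k • k • p)
      rw [iso] at t
      exact lt_of_le_of_ne t hpk
    have w1 := same_dir h iso k y p hy hlt
    have w2 := same_dir h iso k⁻¹ y p (by rw [sq_inv, one_inv, hy]) (by rw [sq_inv, one_inv]; exact hlt)
    have s0 := h.metric.symm y p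
    -- products of `g` and `k` have maximal displacement at `p`
    have c1 : d p (g • k • p) = d p (g • p) + d p (k • p) := by
      have t := h.metric.triangle p (g • p) (g • k • p)
      rw [iso] at t
      refine le_antisymm t (not_lt.1 fun hlt' => ?_)
      have := dir_trans h (p := p) (y := g⁻¹ • p) (z := k • p) (t := y)
        (by rw [two, inv_dist]; exact hlt') (by rw [h.metric.symm, add_comm]; exact w1)
      rw [h.metric.symm (g⁻¹ • p) y, inv_dist] at this
      grind
    have c2 : d p (k • g • p) = d p (g • p) + d p (k • p) := by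
      have t := h.metric.triangle p (k • p) (k • g • p)
      rw [iso] at t
      refine le_antisymm (by rw [add_comm]; exact t) (not_lt.1 fun hlt' => ?_)
      have := dir_trans h (p := p) (y := g • p) (z := k⁻¹ • p) (t := y)
        (by rw [h.metric.symm, two, inv_dist]; exact hlt')
        (by rw [h.metric.symm, add_comm]; exact w2)
      rw [h.metric.symm (g • p) y] at this
      grind
    have pg := pos g p hg
    have pk := pos k p hk
    have hu := chain h iso g k p pg pk c1 c2
    have hune : g * k ≠ 1 := by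
      intro e
      rw [smul_smul, e, one_smul, (h.metric.eq_zero_iff p p).2 rfl] at c1
      grind
    have hc := commute_of_common h iso free tf root g (g * k) p hg hune hp
      (by simp only [← smul_smul]; exact hu)
    rw [mul_assoc] at hc
    exact mul_left_cancel hc

end

end Run7.h192.LT
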