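import Mathlib

/-!
# Lambda-trees, free actions and Q-groups: the definitions

`Λ` is a totally ordered abelian group.  The definitions follow the wording of the problem file of
MP_c6101b_al.
-/

namespace Run7.h192.LT

universe u v w a b

section Tree

variable {Λ : Type a} [AddCommGroup Λ] [LinearOrder Λ] [IsOrderedAddMonoid Λ] {T : Type b}

/-- `d` is a `Λ`-metric on `T`. -/
structure IsLambdaMetric (d : T → T → Λ) : Prop where
  nonneg : ∀ x y, 0 ≤ d x y
  eq_zero_iff : ∀ x y, d x y = 0 ↔ x = y
  symm : ∀ x y, d x y = d y x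
  triangle : ∀ x y z, d x z ≤ d x y + d y z

/-- `S` is a segment with endpoints `x` and `y`: the image of an isometric embedding of a closed
interval `[s, t]` of `Λ`, the ends of the interval being sent to `x` and `y`. -/
def IsSegment (d : T → T → Λ) (S : Set T) (x y : T) : Prop :=
  ∃ (s t : Λ) (f : Λ → T), s ≤ t ∧
    (∀ p ∈ Set.Icc s t, ∀ q ∈ Set.Icc s t, d (f p) (f q) = |p - q|) ∧
    f s = x ∧ f t = y ∧ f '' Set.Icc s t = S

/-- `(T, d)` is a `Λ`-tree: a nonempty `Λ`-metric space in which any two points are joined by a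
segment, the intersection of two segments with a common endpoint is a segment, and the union of two
segments which meet only in a common endpoint is a segment. -/
structure IsLambdaTree (d : T → T → Λ) : Prop where
  nonempty : Nonempty T
  metric : IsLambdaMetric d
  joined : ∀ x y, ∃ S, IsSegment d S x y
  inter : ∀ x y z S₁ S₂, IsSegment d S₁ x y → IsSegment d S₂ x z →
    ∃ p q, IsSegment d (S₁ ∩ S₂) p q
  union : ∀ x y z S₁ S₂, IsSegment d S₁ x y → IsSegment d S₂ x z → S₁ ∩ S₂ = {x} →
    ∃ p q, IsSegment d (S₁ ∪ S₂) p q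

/-- The group `G` acts freely on `(T, d)`: it acts by isometries, and a nontrivial element fixes no
point and inverts no segment, that is, maps no segment with two different endpoints onto itself so
that the endpoints are exchanged. -/
def ActsFreely (G : Type v) [Group G] [MulAction G T] (d : T → T → Λ) : Prop :=
  (∀ (g : G) (x y : T), d (g • x) (g • y) = d x y) ∧
  ∀ g : G, g ≠ 1 →
    (∀ x : T, g • x ≠ x) ∧
    (∀ (S : Set T) (x y : T), x ≠ y → IsSegment d S x y →
      ¬ ((fun z => g • z) '' S = S ∧ g • x = y ∧ g • y = x))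

end Tree

/-- `G` is a `ℚ`-group: for every `g` and every `n ≥ 1` the equation `x ^ n = g` has exactly one
solution in `G`. -/
def IsQGroup (G : Type v) [Group G] : Prop :=
  ∀ (g : G) (n : ℕ), 1 ≤ n → ∃! x : G, x ^ n = g

/-- `G`, with the map `ι : X → G`, is a free `ℚ`-group on `X`: it is a `ℚ`-group, and every map
from `X` to a `ℚ`-group `H` extends uniquely to a homomorphism `G → H`. -/
def IsFreeQGroup {X : Type u} {G : Type v} [Group G] (ι : X → G) : Prop :=
  IsQGroup G ∧ ∀ (H : Type w) [Group H], IsQGroup H → ∀ f : X → H,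
    ∃! φ : G →* H, ∀ x, φ (ι x) = f x

end Run7.h192.LT
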