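import Pool.Agent.Run7.h192.LT.Defs

/-!
# Elementary geometry of Lambda-trees: medians and the four-point condition
-/

namespace Run7.h192.LT

universe a b

variable {Λ : Type a} [AddCommGroup Λ] [LinearOrder Λ] [IsOrderedAddMonoid Λ] {T : Type b}
variable {d : T → T → Λ}

/-- What is used of a segment: its points are determined by the distance from the first end. -/
structure SegData (d : T → T → Λ) (S : Set T) (x y : T) : Prop where
  left_mem : x ∈ S
  right_mem : y ∈ S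
  btw : ∀ p ∈ S, d x p + d p y = d x y
  dist : ∀ p ∈ S, ∀ q ∈ S, d p q = |d x p - d x q|
  exist : ∀ r, 0 ≤ r → r ≤ d x y → ∃ p ∈ S, d x p = r

theorem IsSegment.data (_hd : IsLambdaMetric d) {S : Set T} {x y : T} (h : IsSegment d S x y) :
    SegData d S x y := by
  obtain ⟨s, t, f, hst, hf, rfl, rfl, rfl⟩ := h
  have hs : s ∈ Set.Icc s t := ⟨le_rfl, hst⟩
  have ht : t ∈ Set.Icc s t := ⟨hst, le_rfl⟩
  have h1 : ∀ p ∈ Set.Icc s t, d (f s) (f p) = p - s := by
    intro p hp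
    rw [hf s hs p hp, abs_sub_comm, abs_of_nonneg (sub_nonneg.2 hp.1)]
  have h2 : ∀ p ∈ Set.Icc s t, d (f p) (f t) = t - p := by
    intro p hp
    rw [hf p hp t ht, abs_sub_comm, abs_of_nonneg (sub_nonneg.2 hp.2)]
  refine ⟨⟨s, hs, rfl⟩, ⟨t, ht, rfl⟩, ?_, ?_, ?_⟩
  · rintro _ ⟨p, hp, rfl⟩
    rw [h1 p hp, h2 p hp, h1 t ht]; abel
  · rintro _ ⟨p, hp, rfl⟩ _ ⟨q, hq, rfl⟩
    rw [hf p hp q hq, h1 p hp, h1 q hq]; congr 1; abel
  · intro r hr hr'
    rw [h1 t ht] at hr'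
    have hm : s + r ∈ Set.Icc s t := ⟨by grind, by grind⟩
    exact ⟨f (s + r), ⟨_, hm, rfl⟩, by rw [h1 _ hm]; abel⟩

/-- Two points of a segment at the same distance from the first end are equal. -/
theorem SegData.eq_of_dist (hd : IsLambdaMetric d) {S : Set T} {x y : T} (h : SegData d S x y)
    {p q : T} (hp : p ∈ S) (hq : q ∈ S) (hpq : d x p = d x q) : p = q := by
  have := h.dist p hp q hq
  rw [hpq, sub_self, abs_zero] at this
  exact (hd.eq_zero_iff _ _).1 this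

/-- Points at given distance from the first end of a segment can be reversed. -/
theorem IsSegment.symm {S : Set T} {x y : T} (h : IsSegment d S x y) : IsSegment d S y x := by
  obtain ⟨s, t, f, hst, hf, rfl, rfl, rfl⟩ := h
  refine ⟨s, t, fun r => f (s + t - r), hst, ?_, ?_, ?_, ?_⟩
  · intro p hp q hq
    rw [hf _ ⟨by grind [hp.2], by grind [hp.1]⟩ _ ⟨by grind [hq.2], by grind [hq.1]⟩,
      abs_sub_comm]
    congr 1; abel
  · simp
  · simp
  · ext z
    constructor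
    · rintro ⟨p, hp, rfl⟩
      exact ⟨s + t - p, ⟨by grind [hp.2], by grind [hp.1]⟩, rfl⟩
    · rintro ⟨p, hp, rfl⟩
      refine ⟨s + t - p, ⟨by grind [hp.2], by grind [hp.1]⟩, ?_⟩
      simp

/-- The part of a segment beyond one of its points is a segment. -/
theorem IsSegment.sub (_hd : IsLambdaMetric d) {S : Set T} {x y w : T} (h : IsSegment d S x y)
    (hw : w ∈ S) : IsSegment d {p | p ∈ S ∧ d x w ≤ d x p} w y := by
  obtain ⟨s, t, f, hst, hf, rfl, rfl, rfl⟩ := h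
  obtain ⟨c, hc, rfl⟩ := hw
  have hs : s ∈ Set.Icc s t := ⟨le_rfl, hst⟩
  have h1 : ∀ p ∈ Set.Icc s t, d (f s) (f p) = p - s := by
    intro p hp
    rw [hf s hs p hp, abs_sub_comm, abs_of_nonneg (sub_nonneg.2 hp.1)]
  refine ⟨c, t, f, hc.2, ?_, rfl, rfl, ?_⟩
  · intro p hp q hq
    exact hf p ⟨hc.1.trans hp.1, hp.2⟩ q ⟨hc.1.trans hq.1, hq.2⟩
  · ext z
    constructor
    · rintro ⟨p, hp, rfl⟩
      have hp' : p ∈ Set.Icc s t := ⟨hc.1.trans hp.1, hp.2⟩
      refine ⟨⟨p, hp', rfl⟩, ?_⟩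
      rw [h1 p hp', h1 c hc]
      exact sub_le_sub_right hp.1 s
    · rintro ⟨⟨p, hp, rfl⟩, hle⟩
      rw [h1 p hp, h1 c hc] at hle
      exact ⟨p, ⟨(sub_le_sub_iff_right s).1 hle, hp.2⟩, rfl⟩

/-- The intersection of two segments with common first endpoint `x`: it has an endpoint `w` such
that it consists of the points of either segment at distance at most `d x w` from `x`. -/
theorem inter_data (h : IsLambdaTree d) {x y z : T} {S₁ S₂ : Set T} (h₁ : IsSegment d S₁ x y)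
    (h₂ : IsSegment d S₂ x z) : ∃ w, SegData d (S₁ ∩ S₂) x w := by
  obtain ⟨p, q, hpq⟩ := h.inter x y z S₁ S₂ h₁ h₂
  have D := hpq.data h.metric
  have D' := hpq.symm.data h.metric
  have D₁ := h₁.data h.metric
  have D₂ := h₂.data h.metric
  have hx : x ∈ S₁ ∩ S₂ := ⟨D₁.left_mem, D₂.left_mem⟩
  have e1 := D.btw x hx
  have e2 := D₁.dist p D.left_mem.1 q D.right_mem.1
  have s1 := h.metric.symm p x
  have n1 := h.metric.nonneg x p
  have n2 := h.metric.nonneg x q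
  have key : d x p = 0 ∨ d x q = 0 := by
    rw [s1] at e1
    rw [e2] at e1
    rcases abs_cases (d x p - d x q) with ⟨ha, _⟩ | ⟨ha, _⟩
    · right; grind
    · left; grind
  rcases key with hk | hk
  · rw [(h.metric.eq_zero_iff _ _).1 hk]
    exact ⟨q, D⟩
  · rw [(h.metric.eq_zero_iff _ _).1 hk]
    exact ⟨p, D'⟩

omit [IsOrderedAddMonoid Λ] in
/-- A remark on four points of a line. -/
theorem line_aux [IsOrderedAddMonoid Λ] (α β γ ρ : Λ) (h : |α - β| + |β - γ| ≠ |α - γ|)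
    (h1 : |β - ρ| = |α - β|) (h2 : |ρ - γ| + |β - ρ| = |β - γ|) : |α - ρ| = 0 := by
  rcases abs_cases (α - β) with ⟨e1, _⟩ | ⟨e1, _⟩ <;>
  rcases abs_cases (β - γ) with ⟨e2, _⟩ | ⟨e2, _⟩ <;>
  rcases abs_cases (α - γ) with ⟨e3, _⟩ | ⟨e3, _⟩ <;>
  rcases abs_cases (β - ρ) with ⟨e4, _⟩ | ⟨e4, _⟩ <;>
  rcases abs_cases (ρ - γ) with ⟨e5, _⟩ | ⟨e5, _⟩ <;>
  rw [e1, e2, e3] at h <;> rw [e1, e4] at h1 <;> rw [e5, e4, e2] at h2 <;>
  rw [abs_eq_zero] <;> grind

/-- The far end `w` of the intersection of two segments `[x, y]` and `[x, z]` lies between `y`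
and `z`. -/
theorem median_data (h : IsLambdaTree d) {x y z : T} {S₁ S₂ : Set T} (h₁ : IsSegment d S₁ x y)
    (h₂ : IsSegment d S₂ x z) :
    ∃ w, SegData d (S₁ ∩ S₂) x w ∧ d y w + d w z = d y z := by
  obtain ⟨w, D⟩ := inter_data h h₁ h₂
  have hw := D.right_mem
  refine ⟨w, D, ?_⟩
  have k₁ := h₁.sub h.metric hw.1
  have k₂ := h₂.sub h.metric hw.2
  have K₁ := k₁.data h.metric
  have K₂ := k₂.data h.metric
  have hI : {p | p ∈ S₁ ∧ d x w ≤ d x p} ∩ {p | p ∈ S₂ ∧ d x w ≤ d x p} = {w} := by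
    ext p
    constructor
    · rintro ⟨⟨hp1, hp2⟩, ⟨hp3, -⟩⟩
      have hb := D.btw p ⟨hp1, hp3⟩
      have hn := h.metric.nonneg p w
      have : d p w = 0 := by grind
      exact (h.metric.eq_zero_iff _ _).1 this
    · rintro rfl
      exact ⟨⟨hw.1, le_rfl⟩, ⟨hw.2, le_rfl⟩⟩
  obtain ⟨p, q, hU⟩ := h.union w y z _ _ k₁ k₂ hI
  have U := hU.data h.metric
  set A := {p | p ∈ S₁ ∧ d x w ≤ d x p} with hA
  set B := {p | p ∈ S₂ ∧ d x w ≤ d x p} with hB
  have hwA : w ∈ A := K₁.left_mem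
  have hyA : y ∈ A := K₁.right_mem
  have hzB : z ∈ B := K₂.right_mem
  have hyU : y ∈ A ∪ B := Or.inl hyA
  have hzU : z ∈ A ∪ B := Or.inr hzB
  have hwU : w ∈ A ∪ B := Or.inl hwA
  have t1 := U.dist y hyU z hzU
  have t2 := U.dist y hyU w hwU
  have t3 := U.dist w hwU z hzU
  -- `w` is between `y` and `z` unless one of `y`, `z` is `w`
  by_contra hne
  have nn1 := h.metric.nonneg w y
  have nn2 := h.metric.nonneg w z
  have s1 := h.metric.symm y w
  rcases le_total (d w y) (d w z) with hle | hle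
  · obtain ⟨r, hrB, hr⟩ := K₂.exist (d w y) nn1 hle
    have hb := K₂.btw r hrB
    have t4 := U.dist r (Or.inr hrB) z hzU
    have t5 := U.dist w hwU r (Or.inr hrB)
    have t6 := U.dist y hyU r (Or.inr hrB)
    have hyr : y = r := by
      apply (h.metric.eq_zero_iff _ _).1
      rw [t6]
      refine line_aux (d p y) (d p w) (d p z) (d p r) ?_ ?_ ?_
      · rw [← t2, ← t3, ← t1]; exact hne
      · rw [← t5, ← t2, hr, s1]
      · rw [← t4, ← t5, ← t3, ← hb]; abel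
    have : y ∈ A ∩ B := ⟨hyA, hyr ▸ hrB⟩
    rw [hI] at this
    have hyw : y = w := this
    apply hne
    rw [hyw, (h.metric.eq_zero_iff w w).2 rfl, zero_add]
  · obtain ⟨r, hrA, hr⟩ := K₁.exist (d w z) nn2 hle
    have hb := K₁.btw r hrA
    have t4 := U.dist r (Or.inl hrA) y hyU
    have t5 := U.dist w hwU r (Or.inl hrA)
    have t6 := U.dist z hzU r (Or.inl hrA)
    have s2 := h.metric.symm r y
    have hzr : z = r := by
      apply (h.metric.eq_zero_iff _ _).1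
      rw [t6]
      refine line_aux (d p z) (d p w) (d p y) (d p r) ?_ ?_ ?_
      · rw [abs_sub_comm (d p z) (d p w), abs_sub_comm (d p w) (d p y),
          abs_sub_comm (d p z) (d p y), ← t2, ← t3, ← t1, add_comm]; exact hne
      · rw [← t5, abs_sub_comm (d p z) (d p w), ← t3, hr]
      · rw [← t4, ← t5, abs_sub_comm (d p w) (d p y), ← t2, s1, ← hb]; abel
    have : z ∈ A ∩ B := ⟨hzr ▸ hrA, hzB⟩
    rw [hI] at this
    have hzw : z = w := this
    apply hne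
    rw [hzw, (h.metric.eq_zero_iff w w).2 rfl, add_zero]

/-- Medians. -/
theorem exists_median (h : IsLambdaTree d) (x y z : T) :
    ∃ w, d x w + d w y = d x y ∧ d x w + d w z = d x z ∧ d y w + d w z = d y z := by
  obtain ⟨S₁, h₁⟩ := h.joined x y
  obtain ⟨S₂, h₂⟩ := h.joined x z
  have D₁ := h₁.data h.metric
  have D₂ := h₂.data h.metric
  obtain ⟨w, D, hw⟩ := median_data h h₁ h₂
  exact ⟨w, D₁.btw w D.right_mem.1, D₂.btw w D.right_mem.2, hw⟩

/-- The four-point condition. -/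
theorem four_point (h : IsLambdaTree d) (x y z t : T) :
    d x z + d y t ≤ d x y + d z t ∨ d x z + d y t ≤ d x t + d y z := by
  obtain ⟨S₁, h₁⟩ := h.joined x y
  obtain ⟨S₂, h₂⟩ := h.joined x z
  obtain ⟨S₃, h₃⟩ := h.joined x t
  have D₁ := h₁.data h.metric
  have D₂ := h₂.data h.metric
  have D₃ := h₃.data h.metric
  obtain ⟨w₁, K₁, m₁⟩ := median_data h h₁ h₂
  obtain ⟨w₂, K₂, m₂⟩ := median_data h h₂ h₃
  obtain ⟨w₃, K₃, m₃⟩ := median_data h h₁ h₃
  have a1 := D₁.btw w₁ K₁.right_mem.1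
  have a2 := D₂.btw w₁ K₁.right_mem.2
  have b1 := D₂.btw w₂ K₂.right_mem.1
  have b2 := D₃.btw w₂ K₂.right_mem.2
  have c1 := D₁.btw w₃ K₃.right_mem.1
  have c2 := D₃.btw w₃ K₃.right_mem.2
  have s1 := h.metric.symm y w₁
  have s2 := h.metric.symm z w₂
  have s3 := h.metric.symm y w₃
  rcases le_total (d x w₁) (d x w₂) with hle | hle
  · right
    obtain ⟨p, hp, hpd⟩ := K₂.exist (d x w₁) (h.metric.nonneg _ _) hle
    have hpw : p = w₁ := D₂.eq_of_dist h.metric hp.1 K₁.right_mem.2 hpd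
    have hm : w₁ ∈ S₁ ∩ S₃ := ⟨K₁.right_mem.1, hpw ▸ hp.2⟩
    have e := K₃.btw w₁ hm
    have n := h.metric.nonneg w₁ w₃
    grind
  · left
    obtain ⟨p, hp, hpd⟩ := K₁.exist (d x w₂) (h.metric.nonneg _ _) hle
    have hpw : p = w₂ := D₂.eq_of_dist h.metric hp.2 K₂.right_mem.1 hpd
    have hm : w₂ ∈ S₁ ∩ S₃ := ⟨hpw ▸ hp.1, K₂.right_mem.2⟩
    have e := K₃.btw w₂ hm
    have n := h.metric.nonneg w₂ w₃
    grind

end Run7.h192.LT
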